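import Pool.Agent.V11331.BE.Sol
import Pool.Agent.V11331.BE.Exist

set_option autoImplicit false

/-!
# MP_3fc9e2_pr: non-uniqueness of `L^p` solutions for the BSDE with generator `|z| sin |z|`

For every `d ≥ 1`, every probability space with a `d`-dimensional Brownian motion `B` and every
`T > 0` there are a terminal value `ξ` lying in all `L^p` and two solutions of the BSDE with
generator `|z| sin |z|` and terminal value `ξ` whose initial values differ by `1`, and such that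
`|Y|^p` and `|Y'|^p` are of class (D) for every `p`.

Construction: let `z(t) = 2 π 4 ^ n - 1 / 2` for `T (1 - 2 ^ (-n)) < t ≤ T (1 - 2 ^ (-n-1))`. Then
`g (z(t) + 1) - g (z(t)) = 4 π sin (1/2) 4 ^ n =: κ(t)`, and the integral `K(t)` of `κ` blows up at
`T`. So `1 + B¹_t - K(t)` vanishes for the first time at some `τ < T`, and
`Z_t = z(t) 1_{t ≤ τ} e₁`, `Z'_t = (z(t) + 1) 1_{t ≤ τ} e₁`,
`Y_t = ∫_0^t Z dB - ∫_0^t g(Z) ds`, `Y'_t = 1 + ∫_0^t Z' dB - ∫_0^t g(Z') ds` have the same terminal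
value. All processes are bounded by a polynomial of `sup_{t ≤ T} |B¹_t|`.
-/

namespace Pool.Agent.Results.MP_3fc9e2_pr.NonUniqueness

open MeasureTheory ProbabilityTheory Set Filter Pool.Agent.V11331.BE
open scoped NNReal ENNReal Topology

universe u

/-- The Euclidean norm on `ℝ^d`. -/
noncomputable def nrm {d : ℕ} (z : Fin d → ℝ) : ℝ := √(∑ i, z i ^ 2)

/-- The generator `g(z) = |z| sin |z|`. -/
noncomputable def gen {d : ℕ} (z : Fin d → ℝ) : ℝ := nrm z * Real.sin (nrm z)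

lemma nrm_vec {d : ℕ} (i0 : Fin d) (x : ℝ) (hx : 0 ≤ x) : nrm (vec i0 x) = x := by
  unfold nrm vec
  rw [Finset.sum_eq_single i0]
  · rw [if_pos rfl, Real.sqrt_sq hx]
  · intro i _ hi
    rw [if_neg hi]; norm_num
  · intro h
    exact absurd (Finset.mem_univ _) h

lemma gen_zero {d : ℕ} : gen (0 : Fin d → ℝ) = 0 := by
  unfold gen nrm
  simp

/-- the levels -/
noncomputable def zz (n : ℕ) : ℝ := 2 * Real.pi * 4 ^ n - 1 / 2

lemma zz_pos (n : ℕ) : 0 < zz n := by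
  unfold zz
  have h1 : (1 : ℝ) ≤ 4 ^ n := one_le_pow₀ (by norm_num)
  have h2 := Real.pi_gt_three
  nlinarith

lemma gen_zz {d : ℕ} (i0 : Fin d) (n : ℕ) : gen (vec i0 (zz n)) = - (zz n * Real.sin (1 / 2)) := by
  unfold gen
  rw [nrm_vec i0 _ (zz_pos n).le]
  have h : Real.sin (zz n) = - Real.sin (1 / 2) := by
    have := Real.sin_nat_mul_two_pi_sub (1 / 2) (4 ^ n)
    rw [← this]
    congr 1
    unfold zz
    push_cast
    ring
  rw [h]; ring

lemma gen_zz1 {d : ℕ} (i0 : Fin d) (n : ℕ) :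
    gen (vec i0 (zz n + 1)) = (zz n + 1) * Real.sin (1 / 2) := by
  unfold gen
  rw [nrm_vec i0 _ (by linarith [zz_pos n])]
  have h : Real.sin (zz n + 1) = Real.sin (1 / 2) := by
    have := Real.sin_add_nat_mul_two_pi (1 / 2) (4 ^ n)
    rw [← this]
    congr 1
    unfold zz
    push_cast
    ring
  rw [h]

lemma sin_half_pos : 0 < Real.sin (1 / 2) :=
  Real.sin_pos_of_pos_of_lt_pi (by norm_num) (by linarith [Real.pi_gt_three])

theorem main (d : ℕ) (hd : 0 < d) (Ω : Type u) (_ : MeasurableSpace Ω) (P : Measure Ω)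
    (_ : IsProbabilityMeasure P) (B : Fin d → ℝ≥0 → Ω → ℝ) (hB : IsBM B P) (T : ℝ) (hT : 0 < T) :
    ∃ (ξ : Ω → ℝ) (Y Y' : ℝ → Ω → ℝ) (Z Z' : Fin d → ℝ → Ω → ℝ),
      Measurable[Fil B P T, borel ℝ] ξ ∧
      (∀ p : ℝ, 1 < p → Integrable (fun ω => |ξ ω| ^ p) P) ∧
      IsSol T P B gen ξ Y Z ∧ IsSol T P B gen ξ Y' Z' ∧
      (∀ p : ℝ, 1 < p → ClassD T P (Fil B P) (fun t ω => |Y t ω| ^ p)) ∧
      (∀ p : ℝ, 1 < p → ClassD T P (Fil B P) (fun t ω => |Y' t ω| ^ p)) ∧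
      ∀ ω, Y' 0 ω = Y 0 ω + 1 := by
  set i0 : Fin d := ⟨0, hd⟩
  obtain ⟨X, hX, hS, hae⟩ := exists_W P B hB i0
  set c : ℝ := 4 * Real.pi * Real.sin (1 / 2) with hc
  have hs := sin_half_pos
  have hc0 : 0 < c := by positivity
  set b : ℕ → ℝ := fun n => - (zz n * Real.sin (1 / 2)) with hb
  have hs1 : Real.sin (1 / 2) ≤ 1 := Real.sin_le_one _
  have hz8 : ∀ n, zz n + 1 ≤ 8 * 4 ^ n := by
    intro n
    unfold zz
    have h1 : (1 : ℝ) ≤ 4 ^ n := one_le_pow₀ (by norm_num)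
    have h2 : Real.pi < 3.15 := Real.pi_lt_d2
    nlinarith
  have ha : ∀ n, |zz n| ≤ 8 * 4 ^ n := by
    intro n
    rw [abs_of_pos (zz_pos n)]
    linarith [hz8 n]
  have ha' : ∀ n, |zz n + 1| ≤ 8 * 4 ^ n := by
    intro n
    rw [abs_of_pos (by linarith [zz_pos n])]
    exact hz8 n
  have hbk : ∀ n, b n + kap c n = (zz n + 1) * Real.sin (1 / 2) := by
    intro n
    simp only [hb, hc, kap, zz]
    ring
  have hbb : ∀ n, |b n| ≤ 8 * 4 ^ n := by
    intro n
    simp only [hb]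
    rw [abs_neg, abs_mul, abs_of_pos hs]
    have := abs_nonneg (zz n)
    nlinarith [ha n]
  have hbb' : ∀ n, |b n + kap c n| ≤ 8 * 4 ^ n := by
    intro n
    rw [hbk, abs_mul, abs_of_pos hs]
    have := abs_nonneg (zz n + 1)
    nlinarith [ha' n]
  obtain ⟨s1, D1⟩ := engine P B hB i0 hX hS hae hT hc0 gen gen_zero zz b
    (fun n => (gen_zz i0 n).symm) 0 (by norm_num : (0 : ℝ) ≤ 8) ha hbb
  obtain ⟨s2, D2⟩ := engine P B hB i0 hX hS hae hT hc0 gen gen_zero (fun n => zz n + 1)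
    (fun n => b n + kap c n) (fun n => by rw [hbk, gen_zz1]) (0 + 1)
    (by norm_num : (0 : ℝ) ≤ 8) ha' hbb'
  have hterm : Yp T c (fun t ω => X t.toNNReal ω) (fun n => zz n + 1) (fun n => b n + kap c n)
      (0 + 1) T = Yp T c (fun t ω => X t.toNNReal ω) zz b 0 T := by
    funext ω
    exact terminal_eq hS hT hc0 zz b 0 ω
  rw [hterm] at s2
  refine ⟨_, _, _, _, _, ?_, ?_, s1, s2, ?_, ?_, ?_⟩
  · exact adapted_Yp hS hT hc0 zz b 0 hT.le le_rfl
  · exact fun p hp => (D1 p (by linarith)).2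
  · exact fun p hp => (D1 p (by linarith)).1
  · exact fun p hp => (D2 p (by linarith)).1
  · intro ω
    rw [Yp_zero hS hT hc0, Yp_zero hS hT hc0]

/-- **Main result.** There is a complete probability space which carries a `d`-dimensional Brownian
motion; and on every probability space with a `d`-dimensional Brownian motion, `d ≥ 1`, and for every
`T > 0`, uniqueness fails for the BSDE with generator `|z| sin |z|` in the class of solutions with
`|Y|^p` of class (D): there are a terminal value `ξ`, lying in `L^p` for every `p > 1`, and two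
solutions with this terminal value whose initial values differ by `1`, both with `|Y|^p` of class (D)
for every `p > 1`. -/
theorem result :
    (∀ d : ℕ, ∃ (Ω : Type) (_ : MeasurableSpace Ω) (P : Measure Ω), IsProbabilityMeasure P ∧
      P.IsComplete ∧ ∃ B : Fin d → ℝ≥0 → Ω → ℝ, IsBM B P) ∧
    ∀ (d : ℕ) (_ : 0 < d) (Ω : Type u) (_ : MeasurableSpace Ω) (P : Measure Ω)
      (_ : IsProbabilityMeasure P) (B : Fin d → ℝ≥0 → Ω → ℝ), IsBM B P → ∀ T : ℝ, 0 < T →
      ∃ (ξ : Ω → ℝ) (Y Y' : ℝ → Ω → ℝ) (Z Z' : Fin d → ℝ → Ω → ℝ),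
        Measurable[Fil B P T, borel ℝ] ξ ∧
        (∀ p : ℝ, 1 < p → Integrable (fun ω => |ξ ω| ^ p) P) ∧
        IsSol T P B gen ξ Y Z ∧ IsSol T P B gen ξ Y' Z' ∧
        (∀ p : ℝ, 1 < p → ClassD T P (Fil B P) (fun t ω => |Y t ω| ^ p)) ∧
        (∀ p : ℝ, 1 < p → ClassD T P (Fil B P) (fun t ω => |Y' t ω| ^ p)) ∧
        ∀ ω, Y' 0 ω = Y 0 ω + 1 :=
  ⟨exists_bm, fun d hd Ω mΩ P hP B hB T hT => main d hd Ω mΩ P hP B hB T hT⟩

end Pool.Agent.Results.MP_3fc9e2_pr.NonUniqueness
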